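import Pool.Agent.H174.GP.StG

set_option autoImplicit false

open Finset

namespace Pool.Agent.H16.GP174.thdet

open Pool.Agent.H174.GP

theorem geo (r : ℝ) (h0 : 0 ≤ r) (h1 : r ≤ 1 / 2) (n : ℕ) : ∑ j ∈ range n, r ^ j ≤ 2 := by
  induction n with
  | zero => simp
  | succ n ih =>
    rw [Finset.sum_range_succ']
    have h2 : ∑ k ∈ range n, r ^ (k + 1) = r * ∑ k ∈ range n, r ^ k := by
      rw [Finset.mul_sum]
      exact Finset.sum_congr rfl fun k _ => by rw [pow_succ']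
    rw [h2, pow_zero]
    nlinarith

theorem geo1 (r : ℝ) (h0 : 0 ≤ r) (h1 : r ≤ 1 / 2) (n : ℕ) :
    ∑ j ∈ range n, r ^ (j + 1) ≤ 2 * r := by
  have h2 : ∑ k ∈ range n, r ^ (k + 1) = r * ∑ k ∈ range n, r ^ k := by
    rw [Finset.mul_sum]
    exact Finset.sum_congr rfl fun k _ => by rw [pow_succ']
  rw [h2, mul_comm]
  exact mul_le_mul_of_nonneg_right (geo r h0 h1 n) h0

/-- left part -/
theorem left_sum (r : ℝ) (h0 : 0 ≤ r) (h1 : r ≤ 1 / 2) (m : ℕ) (a : ℕ → ℝ) (ha : ∀ k, 0 ≤ a k) :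
    ∑ i ∈ Icc 1 m, ∑ k ∈ range i, r ^ (i - k) * a k ≤ 2 * r * ∑ k ∈ range (m + 2), a k := by
  have hc : ∑ i ∈ Icc 1 m, ∑ k ∈ range i, r ^ (i - k) * a k =
      ∑ k ∈ range m, ∑ i ∈ Ico (k + 1) (m + 1), r ^ (i - k) * a k := by
    refine Finset.sum_comm' fun i k => ?_
    simp only [mem_Icc, mem_range, mem_Ico]
    omega
  rw [hc, Finset.mul_sum]
  have h2 : ∀ k ∈ range m, ∑ i ∈ Ico (k + 1) (m + 1), r ^ (i - k) * a k ≤ 2 * r * a k := by
    intro k _
    rw [← Finset.sum_mul, Finset.sum_Ico_eq_sum_range]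
    refine mul_le_mul_of_nonneg_right ?_ (ha k)
    refine le_of_eq_of_le (Finset.sum_congr rfl fun j _ => ?_) (geo1 r h0 h1 (m + 1 - (k + 1)))
    congr 1
    omega
  refine (Finset.sum_le_sum h2).trans ?_
  refine Finset.sum_le_sum_of_subset_of_nonneg ?_ fun k _ _ => by
    have := ha k
    positivity
  intro k hk
  rw [mem_range] at hk ⊢
  omega

/-- right part -/
theorem right_sum (r : ℝ) (h0 : 0 ≤ r) (h1 : r ≤ 1 / 2) (m : ℕ) (b : ℕ → ℝ) (hb : ∀ k, 0 ≤ b k) :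
    ∑ i ∈ Icc 1 m, ∑ k ∈ Ico (i + 1) (m + 1), r ^ (k - i) * b k ≤
      2 * r * ∑ k ∈ range (m + 2), b k := by
  have hc : ∑ i ∈ Icc 1 m, ∑ k ∈ Ico (i + 1) (m + 1), r ^ (k - i) * b k =
      ∑ k ∈ Icc 1 m, ∑ i ∈ Ico 1 k, r ^ (k - i) * b k := by
    refine Finset.sum_comm' fun i k => ?_
    simp only [mem_Icc, mem_Ico]
    omega
  rw [hc, Finset.mul_sum]
  have h2 : ∀ k ∈ Icc 1 m, ∑ i ∈ Ico 1 k, r ^ (k - i) * b k ≤ 2 * r * b k := by
    intro k hk
    rw [mem_Icc] at hk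
    rw [← Finset.sum_mul, Finset.sum_Ico_eq_sum_range]
    refine mul_le_mul_of_nonneg_right ?_ (hb k)
    have h3 := Finset.sum_range_reflect (fun j => r ^ (j + 1)) (k - 1)
    refine le_of_eq_of_le ?_ (geo1 r h0 h1 (k - 1))
    rw [← h3]
    refine Finset.sum_congr rfl fun j hj => ?_
    rw [mem_range] at hj
    show r ^ (k - (1 + j)) = r ^ (k - 1 - 1 - j + 1)
    congr 1
    omega
  refine (Finset.sum_le_sum h2).trans ?_
  refine Finset.sum_le_sum_of_subset_of_nonneg ?_ fun k _ _ => by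
    have := hb k
    positivity
  intro k hk
  rw [mem_Icc] at hk
  rw [mem_range]
  omega

theorem Icc_Ioc (n : ℕ) : Icc 1 n = Ioc 0 n := by
  ext j
  simp only [mem_Icc, mem_Ioc]
  omega

/-- splitting of the process -/
theorem Ch_split (ω : ℕ → ℝ) (L x : ℕ) (hxL : x ≤ L) :
    Ch ω L x = (∑ j ∈ Ioc 0 x, ω j) + x * ∑ j ∈ Ioc x L, ω j / (j : ℝ) := by
  unfold Ch Cs
  rw [Icc_Ioc, ← Finset.sum_Ioc_consecutive _ (Nat.zero_le x) hxL, Finset.mul_sum]
  congr 1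
  · refine Finset.sum_congr rfl fun j hj => ?_
    rw [mem_Ioc] at hj
    have hj0 : (j : ℝ) ≠ 0 := by
      have : 0 < j := hj.1
      positivity
    rw [min_eq_left hj.2]
    field_simp
  · refine Finset.sum_congr rfl fun j hj => ?_
    rw [mem_Ioc] at hj
    rw [min_eq_right hj.1.le]

variable {M : ℕ} {q : ℝ}

theorem sqrt_pow (M k : ℕ) : Real.sqrt ((M : ℝ) ^ k) = Real.sqrt M ^ k := by
  rw [Real.sqrt_eq_iff_mul_self_eq (by positivity) (by positivity), ← mul_pow,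
    Real.mul_self_sqrt (by positivity)]

theorem partB (M : ℕ) (hM : 4 ≤ M) (ω : ℕ → ℝ) (i : ℕ) :
    ∑ j ∈ Ioc 0 (M ^ i), ω j = ∑ k ∈ range (i + 1), Real.sqrt M ^ k * uk M ω k := by
  have hq : 0 < Real.sqrt M := Real.sqrt_pos.mpr (by positivity)
  induction i with
  | zero =>
    rw [pow_zero, zero_add, Finset.sum_range_one, pow_zero, one_mul]
    have h1 : Ioc 0 1 = {1} := rfl
    rw [h1, Finset.sum_singleton]
    unfold uk
    rw [if_pos rfl]
  | succ i ih =>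
    rw [Finset.sum_range_succ, ← ih,
      ← Finset.sum_Ioc_consecutive _ (Nat.zero_le (M ^ i))
        (Nat.pow_le_pow_right (by omega) (Nat.le_succ i))]
    congr 1
    unfold uk
    rw [if_neg (Nat.succ_ne_zero i), Nat.succ_sub_one, sqrt_pow]
    field_simp

theorem partC (M m L : ℕ) (hM : 4 ≤ M) (hL : M ^ m ≤ L) (ω : ℕ → ℝ) (i n : ℕ) (hin : i ≤ n)
    (hn : n ≤ m + 1) :
    ∑ j ∈ Ioc (M ^ i) (min (M ^ n) L), ω j / (j : ℝ) =
      ∑ k ∈ Ico i n, (Real.sqrt M ^ k)⁻¹ * vk M L ω (k + 1) := by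
  have hq : 0 < Real.sqrt M := Real.sqrt_pos.mpr (by positivity)
  induction n, hin using Nat.le_induction with
  | base =>
    rw [Finset.Ico_self, Finset.sum_empty, Finset.Ioc_eq_empty, Finset.sum_empty]
    exact not_lt.mpr (min_le_left _ _)
  | succ n hin ih =>
    have hnm : n ≤ m := by omega
    have h1 : M ^ n ≤ L := (Nat.pow_le_pow_right (by omega) hnm).trans hL
    have h2 : min (M ^ n) L = M ^ n := min_eq_left h1
    have h3 : M ^ n ≤ min (M ^ (n + 1)) L :=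
      le_min (Nat.pow_le_pow_right (by omega) (Nat.le_succ n)) h1
    have h4 := ih (by omega)
    rw [h2] at h4
    rw [Finset.sum_Ico_succ_top hin, ← h4,
      ← Finset.sum_Ioc_consecutive _ (Nat.pow_le_pow_right (by omega) hin) h3]
    congr 1
    unfold vk
    rw [Nat.add_sub_cancel, sqrt_pow, ← mul_assoc, inv_mul_cancel₀ (pow_ne_zero _ hq.ne'), one_mul]

theorem decomp (M m L : ℕ) (hM : 4 ≤ M) (hL : M ^ m ≤ L) (hL2 : L ≤ M ^ (m + 1)) (ω : ℕ → ℝ)
    (i : ℕ) (hi : i ≤ m) :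
    (Real.sqrt M)⁻¹ ^ i * Ch ω L (M ^ i) =
      ((∑ k ∈ range i, (Real.sqrt M)⁻¹ ^ (i - k) * uk M ω k) + uk M ω i) +
      (vk M L ω (i + 1) + ∑ k ∈ Ico (i + 1) (m + 1), (Real.sqrt M)⁻¹ ^ (k - i) * vk M L ω (k + 1)) := by
  have hq : 0 < Real.sqrt M := Real.sqrt_pos.mpr (by positivity)
  have hqi : 0 < (Real.sqrt M)⁻¹ := inv_pos.mpr hq
  have hxL : M ^ i ≤ L := (Nat.pow_le_pow_right (by omega) hi).trans hL
  have hC := partC M m L hM hL ω i (m + 1) (by omega) le_rfl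
  rw [min_eq_right hL2] at hC
  have hMi : ((M ^ i : ℕ) : ℝ) = Real.sqrt M ^ i * Real.sqrt M ^ i := by
    rw [← mul_pow, Real.mul_self_sqrt (by positivity)]
    push_cast
    rfl
  rw [Ch_split ω L _ hxL, partB M hM, hC, hMi, mul_add]
  congr 1
  · rw [Finset.mul_sum, Finset.sum_range_succ]
    congr 1
    · refine Finset.sum_congr rfl fun k hk => ?_
      rw [mem_range] at hk
      rw [← mul_assoc]
      congr 1
      have h1 : (Real.sqrt M)⁻¹ ^ i = (Real.sqrt M)⁻¹ ^ (i - k) * (Real.sqrt M)⁻¹ ^ k := by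
        rw [← pow_add]
        congr 1
        omega
      rw [h1, mul_assoc, ← mul_pow, inv_mul_cancel₀ hq.ne', one_pow, mul_one]
    · rw [← mul_assoc, ← mul_pow, inv_mul_cancel₀ hq.ne', one_pow, one_mul]
  · rw [← mul_assoc, ← mul_assoc, ← mul_pow, inv_mul_cancel₀ hq.ne', one_pow, one_mul,
      Finset.sum_eq_sum_Ico_succ_bot (by omega), mul_add]
    congr 1
    · rw [← mul_assoc, mul_inv_cancel₀ (pow_ne_zero _ hq.ne'), one_mul]
    · rw [Finset.mul_sum]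
      refine Finset.sum_congr rfl fun k hk => ?_
      rw [mem_Ico] at hk
      rw [← mul_assoc]
      congr 1
      have h1 : Real.sqrt M ^ k = Real.sqrt M ^ i * Real.sqrt M ^ (k - i) := by
        rw [← pow_add]
        congr 1
        omega
      rw [h1, mul_inv, ← mul_assoc, mul_inv_cancel₀ (pow_ne_zero _ hq.ne'), one_mul, inv_pow]

theorem gp_thdet : S_thdet := by
  intro M m L ω hM hm hL hL2 hpos
  have hq2 : 2 ≤ Real.sqrt M := by
    rw [show (2 : ℝ) = Real.sqrt 4 by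
      rw [show (4 : ℝ) = 2 ^ 2 by norm_num, Real.sqrt_sq (by norm_num)]]
    exact Real.sqrt_le_sqrt (by exact_mod_cast hM)
  have hq : 0 < Real.sqrt M := by linarith
  set r : ℝ := (Real.sqrt M)⁻¹ with hr
  have hr0 : 0 < r := inv_pos.mpr hq
  have hr1 : r ≤ 1 / 2 := by
    rw [hr, one_div]
    exact inv_anti₀ (by norm_num) hq2
  set R : ℕ → ℝ := fun i => (∑ k ∈ range i, r ^ (i - k) * |uk M ω k|) +
    ∑ k ∈ Ico (i + 1) (m + 1), r ^ (k - i) * |vk M L ω (k + 1)| with hR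
  have hR0 : ∀ i, 0 ≤ R i := fun i => add_nonneg
    (Finset.sum_nonneg fun k _ => mul_nonneg (pow_nonneg hr0.le _) (abs_nonneg _))
    (Finset.sum_nonneg fun k _ => mul_nonneg (pow_nonneg hr0.le _) (abs_nonneg _))
  have hR1 : ∀ i ∈ (Finset.Icc 1 m).filter (fun i => uk M ω i < -(1 / 2) ∧ vk M L ω (i + 1) < -(1 / 2)),
      (1 : ℝ) ≤ R i := by
    intro i hi
    rw [Finset.mem_filter, mem_Icc] at hi
    obtain ⟨⟨hi1, him⟩, hu, hv⟩ := hi
    have h1 := decomp M m L hM hL hL2 ω i him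
    have h2 : 0 ≤ (Real.sqrt M)⁻¹ ^ i * Ch ω L (M ^ i) :=
      mul_nonneg (pow_nonneg hr0.le _) (hpos i (mem_Icc.mpr ⟨hi1, him⟩))
    rw [h1] at h2
    have h3 : ∑ k ∈ range i, r ^ (i - k) * uk M ω k ≤ ∑ k ∈ range i, r ^ (i - k) * |uk M ω k| :=
      Finset.sum_le_sum fun k _ => mul_le_mul_of_nonneg_left (le_abs_self _) (pow_nonneg hr0.le _)
    have h4 : ∑ k ∈ Ico (i + 1) (m + 1), r ^ (k - i) * vk M L ω (k + 1) ≤
        ∑ k ∈ Ico (i + 1) (m + 1), r ^ (k - i) * |vk M L ω (k + 1)| :=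
      Finset.sum_le_sum fun k _ => mul_le_mul_of_nonneg_left (le_abs_self _) (pow_nonneg hr0.le _)
    show 1 ≤ _ + _
    linarith
  have h5 : (((Finset.Icc 1 m).filter
      (fun i => uk M ω i < -(1 / 2) ∧ vk M L ω (i + 1) < -(1 / 2))).card : ℝ) ≤ ∑ i ∈ Icc 1 m, R i := by
    have h6 := Finset.card_nsmul_le_sum _ R 1 hR1
    rw [nsmul_eq_mul, mul_one] at h6
    exact h6.trans (Finset.sum_le_sum_of_subset_of_nonneg (Finset.filter_subset _ _)
      fun i _ _ => hR0 i)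
  refine h5.trans ?_
  rw [hR, Finset.sum_add_distrib, Finset.sum_add_distrib, mul_add]
  have h7 := left_sum r hr0.le hr1 m (fun k => |uk M ω k|) (fun k => abs_nonneg _)
  have h8 := right_sum r hr0.le hr1 m (fun k => |vk M L ω (k + 1)|) (fun k => abs_nonneg _)
  rw [div_eq_mul_inv, ← hr]
  exact add_le_add h7 h8

end Pool.Agent.H16.GP174.thdet
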